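import Pool.Agent.N443.PG.Few

/-! `k`-graphs of even uniformity `k = c + 2` without the patterns are close to cocycles. -/

set_option autoImplicit false
open Finset

namespace Pool.Agent.N443.PG

variable {n : ℕ}

/-- number of members of `H` inside `P` -/
def ins (H : Finset (Finset (Fin n))) (P : Finset (Fin n)) : ℕ := (H.filter (· ⊆ P)).card

theorem ins_eq {k : ℕ} (H : Finset (Finset (Fin n))) (hH : H ⊆ powersetCard k univ)
    (P : Finset (Fin n)) (hP : P.card = k + 1) : ins H P = (P.filter fun x => P.erase x ∈ H).card := by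
  unfold ins
  symm
  refine card_bij (fun x _ => P.erase x) ?_ ?_ ?_
  · intro x hx
    rw [mem_filter] at hx ⊢
    exact ⟨hx.2, erase_subset _ _⟩
  · intro x hx y hy h
    rw [mem_filter] at hx hy
    exact erase_injOn P hx.1 hy.1 h
  · intro R hR
    rw [mem_filter] at hR
    have hc : R.card = k := (mem_powersetCard.1 (hH hR.1)).2
    have h1 : (P \ R).card = 1 := by
      rw [card_sdiff_of_subset hR.2, hP, hc]
      omega
    obtain ⟨x, hx⟩ := card_eq_one.1 h1
    have h2 : P.erase x = R := by
      rw [← sdiff_singleton_eq_erase, ← hx, Finset.sdiff_sdiff_eq_self hR.2]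
    refine ⟨x, ?_, h2⟩
    rw [mem_filter, h2]
    have : x ∈ P \ R := by rw [hx]; exact mem_singleton_self x
    exact ⟨(mem_sdiff.1 this).1, hR.1⟩

/-- the odd sets are at most as many as the odd tuples -/
theorem odd_le (c : ℕ) (H : Finset (Finset (Fin n))) (hH : H ⊆ powersetCard (c + 2) univ) :
    ((powersetCard (c + 3) (univ : Finset (Fin n))).filter fun S => ¬ Even (ins H S)).card ≤
      (SX c H).card := by
  classical
  refine card_le_card_of_surjOn (fun x : Fin (c + 3) → Fin n => univ.image x) ?_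
  intro P hP
  obtain ⟨hP1, hP2⟩ := mem_filter.mp (mem_coe.mp hP)
  have hPc := (mem_powersetCard.mp hP1).2
  let x : Fin (c + 3) → Fin n := P.orderEmbOfFin hPc
  have hx : Function.Injective x := (P.orderEmbOfFin hPc).injective
  have hxP : univ.image x = P := image_orderEmbOfFin_univ P hPc
  refine ⟨x, mem_coe.mpr (mem_SX.mpr ?_), hxP⟩
  unfold OddX
  rw [Nat.not_even_iff_odd, ins_eq H hH P hPc] at hP2
  have e : (P.filter fun v => P.erase v ∈ H) =
      (univ.filter fun i => (univ.erase i).image x ∈ H).image x := by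
    ext v
    simp only [mem_filter, mem_image, mem_univ, true_and]
    constructor
    · rintro ⟨hv, h⟩
      rw [← hxP] at hv
      obtain ⟨i, -, rfl⟩ := mem_image.mp hv
      refine ⟨i, ?_, rfl⟩
      rw [image_erase hx, hxP]
      exact h
    · rintro ⟨i, h, rfl⟩
      rw [image_erase hx, hxP] at h
      exact ⟨by rw [← hxP]; exact mem_image_of_mem x (mem_univ i), h⟩
  rw [e, card_image_of_injective _ hx] at hP2
  exact hP2

/-- number of complete sets -/
def cliques (c : ℕ) (H : Finset (Finset (Fin n))) : ℕ :=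
  ((powersetCard (c + 3) (univ : Finset (Fin n))).filter fun S => powersetCard (c + 2) S ⊆ H).card

theorem ok_le (c : ℕ) (H : Finset (Finset (Fin n))) :
    (OK c H).card ≤ (c + 3) ^ (c + 3) * cliques c H := by
  classical
  have hsub : (OK c H).image (fun x : Fin (c + 3) → Fin n => univ.image x) ⊆
      (powersetCard (c + 3) (univ : Finset (Fin n))).filter fun S => powersetCard (c + 2) S ⊆ H := by
    intro P hP
    obtain ⟨x, hx, rfl⟩ := mem_image.mp hP
    obtain ⟨hi, h0⟩ := mem_OK.mp hx
    have hc : (univ.image x).card = c + 3 := by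
      rw [card_image_of_injective _ hi, card_univ, Fintype.card_fin]
    refine mem_filter.mpr ⟨mem_powersetCard.mpr ⟨subset_univ _, hc⟩, ?_⟩
    intro R hR
    obtain ⟨hR1, hR2⟩ := mem_powersetCard.mp hR
    have h1 : ((univ.image x) \ R).card = 1 := by
      rw [card_sdiff_of_subset hR1, hc, hR2]
      omega
    obtain ⟨z, hz⟩ := card_eq_one.1 h1
    have hzm : z ∈ (univ.image x) \ R := by rw [hz]; exact mem_singleton_self z
    obtain ⟨i, -, rfl⟩ := mem_image.mp (mem_sdiff.mp hzm).1
    have h2 : (univ.image x).erase (x i) = R := by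
      rw [← sdiff_singleton_eq_erase, ← hz, Finset.sdiff_sdiff_eq_self hR1]
    rw [← h2, ← image_erase hi]
    exact h0 i
  unfold cliques
  refine (card_le_mul_card_image (f := fun x : Fin (c + 3) → Fin n => univ.image x) (OK c H)
    ((c + 3) ^ (c + 3)) ?_).trans (Nat.mul_le_mul_left _ (card_le_card hsub))
  intro P hP
  have hPc : P.card = c + 3 := (mem_powersetCard.mp (mem_filter.mp (hsub hP)).1).2
  refine (card_le_card (t := Fintype.piFinset fun _ : Fin (c + 3) => P) ?_).trans (le_of_eq ?_)
  · intro x hx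
    rw [Fintype.mem_piFinset]
    intro i
    rw [← (mem_filter.mp hx).2]
    exact mem_image_of_mem x (mem_univ i)
  · rw [Fintype.card_piFinset, prod_const, card_univ, Fintype.card_fin, hPc]

section coc
variable {k : ℕ} (H : Finset (Finset (Fin n))) (v : Fin n)

/-- link of `v`, modulo two -/
def gz (T : Finset (Fin n)) : ZMod 2 := if insert v T ∈ H then 1 else 0

/-- coboundary of the link -/
def hz (Q : Finset (Fin n)) : ZMod 2 := ∑ x ∈ Q, gz H v (Q.erase x)

/-- the cocycle -/
def cz (k : ℕ) : Finset (Finset (Fin n)) := (powersetCard k univ).filter fun Q => hz H v Q = 1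

theorem z2i (x : ZMod 2) : (if x = 1 then (1 : ZMod 2) else 0) = x := by revert x; decide

theorem hz_co (P : Finset (Fin n)) : ∑ x ∈ P, hz H v (P.erase x) = 0 := by
  unfold hz
  refine sym_sum P (fun x y => gz H v ((P.erase x).erase y)) ?_
  intro a b
  rw [erase_right_comm]

theorem cz_sub : cz H v k ⊆ powersetCard k univ := filter_subset _ _

theorem ins_cast (C : Finset (Finset (Fin n))) (hC : C ⊆ powersetCard k univ) (P : Finset (Fin n))
    (hP : P.card = k + 1) :
    (ins C P : ZMod 2) = ∑ x ∈ P, if P.erase x ∈ C then (1 : ZMod 2) else 0 := by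
  rw [ins_eq C hC P hP, card_filter]
  push_cast
  rfl

theorem cz_even (P : Finset (Fin n)) (hP : P ∈ powersetCard (k + 1) (univ : Finset (Fin n))) :
    Even (ins (cz H v k) P) := by
  have hPc := (mem_powersetCard.mp hP).2
  rw [← ZMod.natCast_eq_zero_iff_even, ins_cast _ (cz_sub H v) P hPc]
  refine Eq.trans ?_ (hz_co H v P)
  refine sum_congr rfl fun x hx => ?_
  have h1 : P.erase x ∈ cz H v k ↔ hz H v (P.erase x) = 1 := by
    unfold cz
    rw [mem_filter]
    have : P.erase x ∈ powersetCard k (univ : Finset (Fin n)) :=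
      mem_powersetCard.mpr ⟨subset_univ _, by rw [card_erase_of_mem hx, hPc]; rfl⟩
    simp only [this, true_and]
  simp only [h1]
  exact z2i _

theorem diff_le (hk : 0 < k) (hH : H ⊆ powersetCard k univ) : (symmDiff H (cz H v k)).card ≤
    (((powersetCard (k + 1) (univ : Finset (Fin n))).filter fun S => ¬ Even (ins H S)).filter
      fun S => v ∈ S).card := by
  classical
  have key : ∀ Q ∈ symmDiff H (cz H v k), v ∉ Q ∧ Q.card = k ∧ ¬ Even (ins H (insert v Q)) := by
    intro Q hQ
    have hQ4 : Q ∈ powersetCard k (univ : Finset (Fin n)) := by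
      rcases mem_symmDiff.mp hQ with h | h
      · exact hH h.1
      · exact cz_sub H v h.1
    have hQc := (mem_powersetCard.mp hQ4).2
    have hne : (if Q ∈ H then (1 : ZMod 2) else 0) ≠ hz H v Q := by
      have hm : Q ∈ cz H v k ↔ hz H v Q = 1 := by
        unfold cz
        rw [mem_filter]
        simp only [hQ4, true_and]
      intro he
      rcases mem_symmDiff.mp hQ with h | h
      · rw [if_pos h.1] at he
        exact h.2 (hm.mpr he.symm)
      · rw [if_neg h.2] at he
        have := hm.mp h.1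
        rw [← he] at this
        exact absurd this (by decide)
    have hv : v ∉ Q := by
      intro hv
      refine hne ?_
      unfold hz
      rw [← add_sum_erase _ _ hv]
      have h0 : ∑ x ∈ Q.erase v, gz H v (Q.erase x) = 0 := by
        refine sum_eq_zero fun x hx => ?_
        unfold gz
        rw [if_neg]
        intro h
        have h1 : insert v (Q.erase x) = Q.erase x :=
          insert_eq_of_mem (mem_erase.mpr ⟨(ne_of_mem_erase hx).symm, hv⟩)
        rw [h1] at h
        have h2 := (mem_powersetCard.mp (hH h)).2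
        rw [card_erase_of_mem (mem_of_mem_erase hx), hQc] at h2
        omega
      rw [h0, add_zero]
      unfold gz
      rw [insert_erase hv]
    refine ⟨hv, hQc, fun hev => hne ?_⟩
    have hS : (insert v Q).card = k + 1 := by rw [card_insert_of_notMem hv, hQc]
    rw [← ZMod.natCast_eq_zero_iff_even, ins_cast H hH _ hS, sum_insert hv, erase_insert hv] at hev
    have h3 : ∑ x ∈ Q, (if (insert v Q).erase x ∈ H then (1 : ZMod 2) else 0) = hz H v Q := by
      unfold hz gz
      refine sum_congr rfl fun x hx => ?_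
      have : (insert v Q).erase x = insert v (Q.erase x) :=
        erase_insert_of_ne fun e => hv (e ▸ hx)
      rw [this]
    rw [h3] at hev
    have h4 : ∀ a b : ZMod 2, a + b = 0 → a = b := by decide
    exact h4 _ _ hev
  refine card_le_card_of_injOn (fun Q => insert v Q) ?_ ?_
  · intro Q hQ
    obtain ⟨h1, h2, h3⟩ := key Q (mem_coe.mp hQ)
    refine mem_coe.mpr (mem_filter.mpr ⟨mem_filter.mpr ⟨mem_powersetCard.mpr ⟨subset_univ _, ?_⟩,
      h3⟩, mem_insert_self _ _⟩)
    rw [card_insert_of_notMem h1, h2]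
  · intro Q hQ Q' hQ' h
    obtain ⟨h1, -, -⟩ := key Q (mem_coe.mp hQ)
    obtain ⟨h2, -, -⟩ := key Q' (mem_coe.mp hQ')
    have h' : insert v Q = insert v Q' := h
    rw [← erase_insert h1, h', erase_insert h2]

end coc

/-- some vertex lies in few sets of a family of `m`-sets -/
theorem pick {m : ℕ} (hn : 0 < n) (O : Finset (Finset (Fin n))) (hO : O ⊆ powersetCard m univ) :
    ∃ v : Fin n, n * (O.filter fun S => v ∈ S).card ≤ m * O.card := by
  classical
  by_contra hcon
  push Not at hcon
  have h1 : ∑ v : Fin n, (O.filter fun S => v ∈ S).card = m * O.card := by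
    simp only [card_filter]
    rw [sum_comm]
    have h2 : ∀ S ∈ O, ∑ v : Fin n, (if v ∈ S then 1 else 0) = m := by
      intro S hS
      rw [← card_filter, filter_mem_eq_inter, univ_inter]
      exact (mem_powersetCard.mp (hO hS)).2
    rw [sum_congr rfl h2, sum_const, smul_eq_mul, mul_comm]
  have h3 : ∑ v : Fin n, m * O.card < ∑ v : Fin n, n * (O.filter fun S => v ∈ S).card :=
    sum_lt_sum_of_nonempty ⟨⟨0, hn⟩, mem_univ _⟩ fun v _ => hcon v
  have e : ∑ v : Fin n, n * (O.filter fun S => v ∈ S).card = n * (m * O.card) := by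
    rw [← mul_sum, h1]
  rw [e, sum_const, card_univ, Fintype.card_fin, smul_eq_mul] at h3
  exact lt_irrefl _ h3

/-- `k`-graphs without the patterns are close to cocycles -/
theorem close (c t : ℕ) (hce : Even c) (ε : ℝ) (hε : 0 < ε) : ∃ δ : ℝ, 0 < δ ∧ ∃ n0 : ℕ,
    ∀ n : ℕ, n0 ≤ n → ∀ H : Finset (Finset (Fin n)), H ⊆ powersetCard (c + 2) univ →
    (cliques c H : ℝ) ≤ δ * (n : ℝ) ^ (c + 3) →
    ((OC c H (G1 t)).card : ℝ) ≤ δ * (n : ℝ) ^ (c + (t + t)) →
    ((OC c H (G3 t)).card : ℝ) ≤ δ * (n : ℝ) ^ (c + (t + t)) →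
    ((OC c H (G2 t)).card : ℝ) ≤ δ * (n : ℝ) ^ (c + (t + t + t)) →
    ∃ C : Finset (Finset (Fin n)), C ⊆ powersetCard (c + 2) univ ∧
      (∀ S ∈ powersetCard (c + 3) (univ : Finset (Fin n)), Even (ins C S)) ∧
      ((symmDiff H C).card : ℝ) ≤ ε * (n : ℝ) ^ (c + 2) := by
  obtain ⟨δ, hδ, n0, h0⟩ := few c t hce (ε / (c + 3)) (by positivity)
  obtain ⟨W, hW⟩ : ∃ W : ℝ, W = ((c + 3 : ℕ) : ℝ) ^ (c + 3) := ⟨_, rfl⟩
  have hW1 : 1 ≤ W := by
    rw [hW]
    exact one_le_pow₀ (by push_cast; linarith [(Nat.cast_nonneg c : (0 : ℝ) ≤ (c : ℝ))])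
  refine ⟨δ / W, by positivity, max n0 1, fun n hn H hH hK h1 h3 h2 => ?_⟩
  have hn0 : n0 ≤ n := (le_max_left _ _).trans hn
  have hn1 : 0 < n := (le_max_right _ _).trans hn
  have hnp : (0 : ℝ) < n := by exact_mod_cast hn1
  have q1 : δ / W ≤ δ := div_le_self hδ.le hW1
  have hS : ((SX c H).card : ℝ) ≤ ε / (c + 3) * (n : ℝ) ^ (c + 3) := by
    have h := h0 (Fin n) H (by rw [Fintype.card_fin]; exact hn0)
    rw [Fintype.card_fin] at h
    refine h ?_ (h1.trans (mul_le_mul_of_nonneg_right q1 (by positivity)))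
      (h3.trans (mul_le_mul_of_nonneg_right q1 (by positivity)))
      (h2.trans (mul_le_mul_of_nonneg_right q1 (by positivity)))
    have h4 : ((OK c H).card : ℝ) ≤ W * (cliques c H : ℝ) := by
      rw [hW]
      exact_mod_cast ok_le c H
    refine h4.trans ((mul_le_mul_of_nonneg_left hK (by positivity)).trans (le_of_eq ?_))
    rw [← mul_assoc, mul_div_cancel₀ _ (by positivity)]
  obtain ⟨v, hv⟩ := pick hn1 ((powersetCard (c + 3) (univ : Finset (Fin n))).filter
    fun S => ¬ Even (ins H S)) (filter_subset _ _)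
  refine ⟨cz H v (c + 2), cz_sub H v, fun S hS => cz_even H v S hS, ?_⟩
  have a1 := diff_le H v (by omega : 0 < c + 2) hH
  have a2 := odd_le c H hH
  have a3 : n * (symmDiff H (cz H v (c + 2))).card ≤ (c + 3) * (SX c H).card :=
    (Nat.mul_le_mul_left n a1).trans (hv.trans (Nat.mul_le_mul_left (c + 3) a2))
  have a4 : (n : ℝ) * ((symmDiff H (cz H v (c + 2))).card : ℝ) ≤ (c + 3) * ((SX c H).card : ℝ) := by
    exact_mod_cast a3
  have a5 : (n : ℝ) * ((symmDiff H (cz H v (c + 2))).card : ℝ) ≤
      (n : ℝ) * (ε * (n : ℝ) ^ (c + 2)) := by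
    refine a4.trans ((mul_le_mul_of_nonneg_left hS (by positivity)).trans (le_of_eq ?_))
    have : (c + 3 : ℝ) ≠ 0 := by positivity
    field_simp
    ring
  exact le_of_mul_le_mul_left a5 hnp

end Pool.Agent.N443.PG
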