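import Pool.Agent.N443.PG.Occ
import Pool.Agent.N443.PL.Few

/-! The counting step: few odd `(k+1)`-sets. -/

set_option autoImplicit false
open Finset

namespace Pool.Agent.N443.PG
open Pool.Agent.Y47.BU (Bl bl_card)
open Pool.Agent.N443.PL (part nonin mem_Bl)

section
variable {V : Type} [Fintype V] [DecidableEq V]

open Classical in
/-- the tuples that span an odd number of edges -/
noncomputable def SX (c : ℕ) (H : Finset (Finset V)) : Finset (Fin (c + 3) → V) :=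
  univ.filter fun x => OddX c H x

open Classical in
/-- the complete tuples -/
noncomputable def OK (c : ℕ) (H : Finset (Finset V)) : Finset (Fin (c + 3) → V) :=
  univ.filter fun x => QK c H x

open Classical in
/-- the copies of `F` in links -/
noncomputable def OC (c : ℕ) (H : Finset (Finset V)) {J : Type} [Fintype J] (F : SimpleGraph J) :
    Finset (Fin c ⊕ J → V) := univ.filter fun x => Cp c H F x

theorem mem_SX {c : ℕ} {H : Finset (Finset V)} {x : Fin (c + 3) → V} : x ∈ SX c H ↔ OddX c H x := by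
  unfold SX
  simp only [mem_filter, mem_univ, true_and]

theorem mem_OK {c : ℕ} {H : Finset (Finset V)} {x : Fin (c + 3) → V} : x ∈ OK c H ↔ QK c H x := by
  unfold OK
  simp only [mem_filter, mem_univ, true_and]

theorem mem_OC {c : ℕ} {H : Finset (Finset V)} {J : Type} [Fintype J] {F : SimpleGraph J}
    {x : Fin c ⊕ J → V} : x ∈ OC c H F ↔ Cp c H F x := by
  unfold OC
  simp only [mem_filter, mem_univ, true_and]

theorem cover {c t T : ℕ} (hT : OccT c t T) (H : Finset (Finset V)) :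
    (Bl (c + 3) T (SX c H)).card ≤ ((c + 3) * T) ^ 2 * Fintype.card V ^ ((c + 3) * T - 1) +
      (((c + 3) * T) ^ (c + 3) * ((OK c H).card * Fintype.card V ^ ((c + 3) * T - (c + 3))) +
      (((c + 3) * T) ^ (c + (t + t)) *
        ((OC c H (G1 t)).card * Fintype.card V ^ ((c + 3) * T - (c + (t + t)))) +
      (((c + 3) * T) ^ (c + (t + t)) *
        ((OC c H (G3 t)).card * Fintype.card V ^ ((c + 3) * T - (c + (t + t)))) +
      ((c + 3) * T) ^ (c + (t + t + t)) *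
        ((OC c H (G2 t)).card * Fintype.card V ^ ((c + 3) * T - (c + (t + t + t))))))) := by
  classical
  have cB : Fintype.card (Fin (c + 3) × Fin T) = (c + 3) * T := by
    rw [Fintype.card_prod, Fintype.card_fin, Fintype.card_fin]
  have cK : Fintype.card (Fin (c + 3)) = c + 3 := Fintype.card_fin _
  have c1 : Fintype.card (Fin c ⊕ (Fin t ⊕ Fin t)) = c + (t + t) := by
    simp only [Fintype.card_sum, Fintype.card_fin]
  have c2 : Fintype.card (Fin c ⊕ ((Fin t ⊕ Fin t) ⊕ Fin t)) = c + (t + t + t) := by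
    simp only [Fintype.card_sum, Fintype.card_fin]
  set s : Finset (Fin (c + 3) × Fin T → V) := (Bl (c + 3) T (SX c H)).image
    fun (y : Fin (c + 3) → Fin T → V) (q : Fin (c + 3) × Fin T) => y q.1 q.2 with hs
  have hc : s.card = (Bl (c + 3) T (SX c H)).card := by
    refine card_image_of_injective _ ?_
    intro y y' h
    funext i a
    exact congrFun h (i, a)
  have p0 := nonin (s.filter fun w => ¬ Function.Injective w) (fun w hw => (mem_filter.mp hw).2)
  have pK := part (OK c H) (s.filter fun w => ∃ e : Fin (c + 3) → Fin (c + 3) × Fin T,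
    Function.Injective e ∧ w ∘ e ∈ OK c H) (fun w hw => (mem_filter.mp hw).2)
  have p1 := part (OC c H (G1 t)) (s.filter fun w => ∃ e : Fin c ⊕ (Fin t ⊕ Fin t) →
    Fin (c + 3) × Fin T, Function.Injective e ∧ w ∘ e ∈ OC c H (G1 t))
    (fun w hw => (mem_filter.mp hw).2)
  have p3 := part (OC c H (G3 t)) (s.filter fun w => ∃ e : Fin c ⊕ (Fin t ⊕ Fin t) →
    Fin (c + 3) × Fin T, Function.Injective e ∧ w ∘ e ∈ OC c H (G3 t))
    (fun w hw => (mem_filter.mp hw).2)
  have p2 := part (OC c H (G2 t)) (s.filter fun w => ∃ e : Fin c ⊕ ((Fin t ⊕ Fin t) ⊕ Fin t) →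
    Fin (c + 3) × Fin T, Function.Injective e ∧ w ∘ e ∈ OC c H (G2 t))
    (fun w hw => (mem_filter.mp hw).2)
  rw [cB] at p0 pK p1 p3 p2
  rw [cK] at pK
  rw [c1] at p1 p3
  rw [c2] at p2
  rw [← hc]
  refine le_trans ?_ (Nat.add_le_add p0 (Nat.add_le_add pK (Nat.add_le_add p1
    (Nat.add_le_add p3 p2))))
  refine le_trans ?_ (Nat.add_le_add_left ((card_union_le _ _).trans
    (Nat.add_le_add_left ((card_union_le _ _).trans (Nat.add_le_add_left (card_union_le _ _) _)) _)) _)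
  refine le_trans ?_ (card_union_le _ _)
  refine card_le_card ?_
  intro w hw
  obtain ⟨y, hy, rfl⟩ := mem_image.mp hw
  have hy2 := mem_Bl.mp hy
  by_cases hinj : Function.Injective fun q : Fin (c + 3) × Fin T => y q.1 q.2
  · refine mem_union_right _ ?_
    rcases hT V H y (fun i a j b h => by
      have h2 := @hinj (i, a) (j, b) h
      exact ⟨(Prod.mk.inj h2).1, (Prod.mk.inj h2).2⟩) (fun f => mem_SX.mp (hy2 f)) with
      ⟨e, he, hO⟩ | ⟨e, he, hO⟩ | ⟨e, he, hO⟩ | ⟨e, he, hO⟩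
    · exact mem_union_left _ (mem_filter.mpr ⟨hw, e, he, mem_OK.mpr hO⟩)
    · exact mem_union_right _ (mem_union_left _ (mem_filter.mpr ⟨hw, e, he, mem_OC.mpr hO⟩))
    · exact mem_union_right _ (mem_union_right _ (mem_union_left _
        (mem_filter.mpr ⟨hw, e, he, mem_OC.mpr hO⟩)))
    · exact mem_union_right _ (mem_union_right _ (mem_union_right _
        (mem_filter.mpr ⟨hw, e, he, mem_OC.mpr hO⟩)))
  · exact mem_union_left _ (mem_filter.mpr ⟨hw, hinj⟩)

/-- few tuples span an odd number of edges -/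
theorem few (c t : ℕ) (hce : Even c) (κ : ℝ) (hκ : 0 < κ) : ∃ δ : ℝ, 0 < δ ∧ ∃ n0 : ℕ,
    ∀ (V : Type) [Fintype V] [DecidableEq V] (H : Finset (Finset V)), n0 ≤ Fintype.card V →
    ((OK c H).card : ℝ) ≤ δ * (Fintype.card V : ℝ) ^ (c + 3) →
    ((OC c H (G1 t)).card : ℝ) ≤ δ * (Fintype.card V : ℝ) ^ (c + (t + t)) →
    ((OC c H (G3 t)).card : ℝ) ≤ δ * (Fintype.card V : ℝ) ^ (c + (t + t)) →
    ((OC c H (G2 t)).card : ℝ) ≤ δ * (Fintype.card V : ℝ) ^ (c + (t + t + t)) →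
    ((SX c H).card : ℝ) ≤ κ * (Fintype.card V : ℝ) ^ (c + 3) := by
  obtain ⟨T, hT0, hTt, hT⟩ := occ c t hce
  have hb : c + 3 * t + 3 ≤ (c + 3) * T :=
    hTt.trans (Nat.le_mul_of_pos_left T (by omega))
  have hb1 : c + 3 ≤ (c + 3) * T := Nat.le_mul_of_pos_right _ hT0
  obtain ⟨b, hbd⟩ : ∃ b : ℝ, b = (c + 3 : ℝ) * T := ⟨_, rfl⟩
  have hb0 : 0 < b := by
    have : (0 : ℝ) < T := by exact_mod_cast hT0
    rw [hbd]; positivity
  obtain ⟨M, hM⟩ : ∃ M : ℝ, M = b ^ 2 + (b ^ (c + 3) + (b ^ (c + (t + t)) + (b ^ (c + (t + t)) +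
    b ^ (c + (t + t + t))))) := ⟨_, rfl⟩
  have hM0 : 0 < M := by rw [hM]; positivity
  have hD : 0 < κ ^ (T ^ (c + 3)) := by positivity
  refine ⟨κ ^ (T ^ (c + 3)) / (M + 1), by positivity, ⌈(M + 1) / κ ^ (T ^ (c + 3))⌉₊ + 1,
    fun V _ _ H hn hK h1 h3 h2 => ?_⟩
  obtain ⟨δ, hδ⟩ : ∃ δ : ℝ, δ = κ ^ (T ^ (c + 3)) / (M + 1) := ⟨_, rfl⟩
  rw [← hδ] at hK h1 h3 h2
  have hδ0 : 0 < δ := by rw [hδ]; positivity
  have hMδ : M * δ < κ ^ (T ^ (c + 3)) := by
    rw [hδ, mul_div_assoc', div_lt_iff₀ (by positivity)]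
    nlinarith
  obtain ⟨n, hnn⟩ : ∃ n : ℝ, n = (Fintype.card V : ℝ) := ⟨_, rfl⟩
  rw [← hnn] at hK h1 h3 h2 ⊢
  have hn1 : (1 : ℝ) / δ ≤ n := by
    have e : (1 : ℝ) / δ = (M + 1) / κ ^ (T ^ (c + 3)) := by rw [hδ, one_div, inv_div]
    rw [e, hnn]
    refine (Nat.le_ceil _).trans ?_
    exact_mod_cast (Nat.le_succ _).trans hn
  have hn0 : 0 < n := by rw [hnn]; exact_mod_cast (Nat.succ_pos _).trans_le hn
  have hn1' : 1 ≤ δ * n := by
    rw [div_le_iff₀ hδ0] at hn1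
    linarith
  by_contra hneg
  rw [not_le] at hneg
  have b1 := bl_card (V := V) (n := n) hnn.symm hn0 hT0 (c + 3) (SX c H)
  have b2 : n ^ ((c + 3) * T) * κ ^ (T ^ (c + 3)) ≤ ((Bl (c + 3) T (SX c H)).card : ℝ) := by
    refine le_trans ?_ b1
    refine mul_le_mul_of_nonneg_left ?_ (by positivity)
    refine pow_le_pow_left₀ hκ.le ?_ _
    rw [le_div_iff₀ (by positivity)]
    exact hneg.le
  have b3 : ((Bl (c + 3) T (SX c H)).card : ℝ) ≤ b ^ 2 * n ^ ((c + 3) * T - 1) +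
      (b ^ (c + 3) * ((OK c H).card * n ^ ((c + 3) * T - (c + 3))) +
      (b ^ (c + (t + t)) * ((OC c H (G1 t)).card * n ^ ((c + 3) * T - (c + (t + t)))) +
      (b ^ (c + (t + t)) * ((OC c H (G3 t)).card * n ^ ((c + 3) * T - (c + (t + t)))) +
      b ^ (c + (t + t + t)) *
        ((OC c H (G2 t)).card * n ^ ((c + 3) * T - (c + (t + t + t))))))) := by
    have h := cover (V := V) hT H
    have h' : (((Bl (c + 3) T (SX c H)).card : ℕ) : ℝ) ≤ ((((c + 3) * T) ^ 2 *
      Fintype.card V ^ ((c + 3) * T - 1) +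
      (((c + 3) * T) ^ (c + 3) * ((OK c H).card * Fintype.card V ^ ((c + 3) * T - (c + 3))) +
      (((c + 3) * T) ^ (c + (t + t)) *
        ((OC c H (G1 t)).card * Fintype.card V ^ ((c + 3) * T - (c + (t + t)))) +
      (((c + 3) * T) ^ (c + (t + t)) *
        ((OC c H (G3 t)).card * Fintype.card V ^ ((c + 3) * T - (c + (t + t)))) +
      ((c + 3) * T) ^ (c + (t + t + t)) *
        ((OC c H (G2 t)).card * Fintype.card V ^ ((c + 3) * T - (c + (t + t + t))))))) : ℕ) : ℝ) := by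
      exact_mod_cast h
    push_cast at h'
    rw [← hnn, ← hbd] at h'
    exact h'
  have sp : ∀ k : ℕ, k ≤ (c + 3) * T → n ^ k * n ^ ((c + 3) * T - k) = n ^ ((c + 3) * T) :=
    fun k hk => by
      rw [← pow_add]; congr 1; omega
  have e0 : n ^ ((c + 3) * T - 1) ≤ δ * n ^ ((c + 3) * T) := by
    have h := sp 1 (by omega)
    rw [pow_one] at h
    rw [← h, ← mul_assoc]
    exact le_mul_of_one_le_left (by positivity) hn1'
  have eg : ∀ (k : ℕ) (x : ℝ), k ≤ (c + 3) * T → x ≤ δ * n ^ k →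
      x * n ^ ((c + 3) * T - k) ≤ δ * n ^ ((c + 3) * T) := by
    intro k x hk hx
    rw [← sp k hk, ← mul_assoc]
    exact mul_le_mul_of_nonneg_right hx (by positivity)
  have t0 := mul_le_mul_of_nonneg_left e0 (by positivity : (0 : ℝ) ≤ b ^ 2)
  have tK := mul_le_mul_of_nonneg_left (eg (c + 3) _ hb1 hK)
    (by positivity : (0 : ℝ) ≤ b ^ (c + 3))
  have t1 := mul_le_mul_of_nonneg_left (eg _ _ (by omega) h1)
    (by positivity : (0 : ℝ) ≤ b ^ (c + (t + t)))
  have t3 := mul_le_mul_of_nonneg_left (eg _ _ (by omega) h3)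
    (by positivity : (0 : ℝ) ≤ b ^ (c + (t + t)))
  have t2 := mul_le_mul_of_nonneg_left (eg _ _ (by omega) h2)
    (by positivity : (0 : ℝ) ≤ b ^ (c + (t + t + t)))
  have b4 : ((Bl (c + 3) T (SX c H)).card : ℝ) ≤ M * δ * n ^ ((c + 3) * T) := by
    rw [hM]
    have e : (b ^ 2 + (b ^ (c + 3) + (b ^ (c + (t + t)) + (b ^ (c + (t + t)) +
      b ^ (c + (t + t + t)))))) * δ * n ^ ((c + 3) * T) =
      b ^ 2 * (δ * n ^ ((c + 3) * T)) + (b ^ (c + 3) * (δ * n ^ ((c + 3) * T)) +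
      (b ^ (c + (t + t)) * (δ * n ^ ((c + 3) * T)) + (b ^ (c + (t + t)) * (δ * n ^ ((c + 3) * T)) +
      b ^ (c + (t + t + t)) * (δ * n ^ ((c + 3) * T))))) := by ring
    rw [e]
    linarith
  have b5 : M * δ * n ^ ((c + 3) * T) < κ ^ (T ^ (c + 3)) * n ^ ((c + 3) * T) :=
    mul_lt_mul_of_pos_right hMδ (by positivity)
  linarith [mul_comm (n ^ ((c + 3) * T)) (κ ^ (T ^ (c + 3)))]

end

end Pool.Agent.N443.PG
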