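import Pool.Agent.N443.PL.Ram

/-! Homogeneous blow-ups in `k`-graphs. -/

set_option autoImplicit false
open Finset

namespace Pool.Agent.N443.PG
open Pool.Agent.N443.PL (ram)

/-- position of the `i`-th vertex of part `a` -/
def pos {r m : ℕ} (a : Fin r) (i : Fin m) : Fin (r * m) :=
  ⟨a.val * m + i.val, by
    have h1 := a.isLt
    have h2 := i.isLt
    calc a.val * m + i.val < a.val * m + m := by omega
      _ = (a.val + 1) * m := by ring
      _ ≤ r * m := Nat.mul_le_mul_right _ h1⟩

/-- the part of a position -/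
def pt {r m : ℕ} (p : Fin (r * m)) : Fin r :=
  ⟨p.val / m, Nat.div_lt_of_lt_mul (lt_of_lt_of_eq p.isLt (Nat.mul_comm r m))⟩

theorem pt_pos {r m : ℕ} (a : Fin r) (i : Fin m) : pt (pos a i) = a := by
  have hm : 0 < m := lt_of_le_of_lt (Nat.zero_le _) i.isLt
  apply Fin.ext
  change (a.val * m + i.val) / m = a.val
  rw [add_comm, Nat.add_mul_div_right _ _ hm, Nat.div_eq_of_lt i.isLt, zero_add]

theorem pos_mod {r m : ℕ} (a : Fin r) (i : Fin m) : (pos a i).val % m = i.val := by
  change (a.val * m + i.val) % m = i.val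
  rw [add_comm, Nat.add_mul_mod_self_right, Nat.mod_eq_of_lt i.isLt]

theorem pos_inj {r m : ℕ} {a b : Fin r} {i j : Fin m} (h : pos a i = pos b j) : a = b ∧ i = j := by
  refine ⟨by rw [← pt_pos a i, h, pt_pos], Fin.ext ?_⟩
  rw [← pos_mod a i, h, pos_mod]

theorem pt_mono {r m : ℕ} {p q : Fin (r * m)} (h : p ≤ q) : pt p ≤ pt q :=
  Nat.div_le_div_right h

/-- a monotone family is determined by its multiset of values -/
theorem mono_unique {k r : ℕ} {b b' : Fin k → Fin r} (hb : Monotone b) (hb' : Monotone b')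
    (h : (univ : Finset (Fin k)).val.map b = (univ : Finset (Fin k)).val.map b') : b = b' := by
  rw [Fin.univ_val_map, Fin.univ_val_map] at h
  have hp : (List.ofFn b).Perm (List.ofFn b') := Multiset.coe_eq_coe.mp h
  have h1 := List.Perm.eq_of_sortedLE (List.sortedLE_ofFn_iff.mpr hb)
    (List.sortedLE_ofFn_iff.mpr hb') hp
  exact List.ofFn_injective h1

/-- every large `r`-partite family of vertices contains a homogeneous one -/
theorem hom_gen (k r m : ℕ) : ∃ T : ℕ, 0 < T ∧ ∀ (V : Type) [DecidableEq V]
    (H : Finset (Finset V)) (y : Fin r → Fin T → V), ∃ (χ : Multiset (Fin r) → Bool)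
    (ζ : Fin r → Fin m → Fin T), (∀ a i b j, ζ a i = ζ b j → a = b ∧ i = j) ∧
    ∀ Q : Finset (Fin r × Fin m), Q.card = k →
      ((Q.image fun q => y q.1 (ζ q.1 q.2)) ∈ H ↔ χ (Q.val.map Prod.fst) = true) := by
  classical
  obtain ⟨N, hN⟩ := ram ((Fin k → Fin r) → Bool) k (r * m)
  obtain ⟨T, hT⟩ : ∃ T, T = max N 1 := ⟨_, rfl⟩
  refine ⟨T, by omega, fun V _ H y => ?_⟩
  obtain ⟨B, c, -, hB, hc⟩ := hN (Fin T) univ
    (by rw [card_univ, Fintype.card_fin, hT]; exact le_max_left _ _)
    (fun J s => if h : J.card = k then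
      decide ((univ.image fun i : Fin k => y (s i) (J.orderEmbOfFin h i)) ∈ H) else false)
  let β : Fin (r * m) ↪o Fin T := B.orderEmbOfFin hB
  have hP : ∀ e : Fin k ↪o Fin (r * m),
      ((univ.image fun i : Fin k => y (pt (e i)) (β (e i))) ∈ H ↔
        c (fun i => pt (e i)) = true) := by
    intro e
    set J : Finset (Fin T) := univ.map (e.trans β).toEmbedding with hJ
    have hJc : J.card = k := by rw [hJ, card_map, card_univ, Fintype.card_fin]
    have hJB : J ⊆ B := by
      intro x hx
      obtain ⟨i, -, rfl⟩ := mem_map.mp hx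
      exact orderEmbOfFin_mem B hB (e i)
    have h1 := hc J hJB hJc
    have h2 : ∀ i, J.orderEmbOfFin hJc i = β (e i) := by
      intro i
      have h3 : (fun i => β (e i)) = J.orderEmbOfFin hJc :=
        orderEmbOfFin_unique hJc (fun i => mem_map.mpr ⟨i, mem_univ _, rfl⟩)
          (fun i j hij => β.strictMono (e.strictMono hij))
      exact (congrFun h3 i).symm
    have h4 := congrFun h1 fun i => pt (e i)
    simp only [dif_pos hJc, h2] at h4
    rw [← h4, decide_eq_true_iff]
  refine ⟨fun M => decide (∃ b : Fin k → Fin r, Monotone b ∧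
    (univ : Finset (Fin k)).val.map b = M ∧ c b = true), fun a i => β (pos a i),
    fun a i b j h => pos_inj (β.injective h), fun Q hQ => ?_⟩
  have hinj : Function.Injective fun q : Fin r × Fin m => pos q.1 q.2 := fun q q' h =>
    Prod.ext (pos_inj h).1 (pos_inj h).2
  set P : Finset (Fin (r * m)) := Q.image fun q => pos q.1 q.2 with hPdef
  have hPc : P.card = k := by rw [hPdef, card_image_of_injective _ hinj, hQ]
  let e : Fin k ↪o Fin (r * m) := P.orderEmbOfFin hPc
  have he : univ.image e = P := image_orderEmbOfFin_univ P hPc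
  have s1 : (Q.image fun q => y q.1 (β (pos q.1 q.2))) =
      univ.image fun i : Fin k => y (pt (e i)) (β (e i)) := by
    have h1 : (univ.image fun i : Fin k => y (pt (e i)) (β (e i))) =
        (univ.image e).image fun p => y (pt p) (β p) := by
      rw [image_image]
      rfl
    rw [h1, he, hPdef, image_image]
    refine image_congr fun q _ => ?_
    simp only [Function.comp]
    rw [pt_pos]
  have s2 : Q.val.map Prod.fst = (univ : Finset (Fin k)).val.map fun i => pt (e i) := by
    have h1 : P.val = Q.val.map fun q => pos q.1 q.2 := by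
      rw [hPdef]
      exact image_val_of_injOn (hinj.injOn)
    have h2 : P.val = (univ : Finset (Fin k)).val.map e := by
      rw [← he]
      exact image_val_of_injOn (e.injective.injOn)
    have h3 : Q.val.map Prod.fst = P.val.map pt := by
      rw [h1, Multiset.map_map]
      refine Multiset.map_congr rfl fun q _ => ?_
      simp only [Function.comp]
      rw [pt_pos]
    rw [h3, h2, Multiset.map_map]
    rfl
  have hm : Monotone fun i => pt (e i) := fun u v h => pt_mono (e.monotone h)
  change (Q.image fun q => y q.1 (β (pos q.1 q.2))) ∈ H ↔ _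
  rw [s1, hP e, s2, decide_eq_true_iff]
  constructor
  · intro h
    exact ⟨_, hm, rfl, h⟩
  · rintro ⟨b, hb, hbe, hcb⟩
    rw [← mono_unique hb hm hbe]
    exact hcb

end Pool.Agent.N443.PG
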