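import Mathlib

/-! The parity lemma. -/

set_option autoImplicit false
open Finset

namespace Pool.Agent.N443.PG

theorem z2 (x : ZMod 2) : x + x = 0 := by revert x; decide

/-- symmetric double sums vanish modulo two -/
theorem sym_sum {P : Type} [DecidableEq P] (R : Finset P) (f : P → P → ZMod 2)
    (hf : ∀ a b, f a b = f b a) : ∑ a ∈ R, ∑ b ∈ R.erase a, f a b = 0 := by
  rw [Finset.sum_sigma']
  refine Finset.sum_involution (fun p _ => ⟨p.2, p.1⟩) ?_ ?_ ?_ ?_
  · rintro ⟨x, y⟩ h
    simp only
    rw [hf y x]
    exact z2 _
  · rintro ⟨x, y⟩ h _ heq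
    simp only [mem_sigma, mem_erase] at h
    simp only [Sigma.mk.injEq, heq_eq_eq] at heq
    exact h.2.1 heq.1
  · rintro ⟨x, y⟩ h
    simp only [mem_sigma, mem_erase] at h ⊢
    exact ⟨h.2.2, h.2.1.symm, h.1⟩
  · rintro ⟨x, y⟩ h
    rfl

/-- the parity lemma -/
theorem parity {P : Type} [DecidableEq P] (k : ℕ) (g : Finset P → Bool)
    (hK : ∀ U : Finset P, Odd U.card → U.card ≤ k + 1 → ∃ x ∈ U, g (U.erase x) = false)
    (hF : ∀ T : Finset P, T.card + 2 ≤ k → g T = false → ∀ c d e : P, c ∉ T → d ∉ T → e ∉ T →
      c ≠ d → c ≠ e → d ≠ e → g (insert c (insert d T)) = true →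
      g (insert c (insert e T)) = false → g (insert d (insert e T)) = false → False) :
    ∀ (s : ℕ) (U : Finset P), U.card = 2 * s + 1 → U.card ≤ k + 1 →
      Even (U.filter fun x => g (U.erase x) = true).card := by
  intro s
  induction s with
  | zero =>
    intro U hU hUk
    obtain ⟨u, rfl⟩ := card_eq_one.mp hU
    obtain ⟨x, hx, hg⟩ := hK {u} (by rw [hU]; decide) hUk
    rw [mem_singleton] at hx
    subst hx
    have : (({x} : Finset P).filter fun y => g (({x} : Finset P).erase y) = true) = ∅ := by
      rw [filter_eq_empty_iff]
      intro y hy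
      rw [mem_singleton] at hy
      subst hy
      rw [hg]
      simp
    rw [this]
    simp
  | succ s ih =>
    intro U hU hUk
    by_contra hodd
    rw [Nat.not_even_iff_odd] at hodd
    set E := U.filter fun x => g (U.erase x) = true with hE
    set N := U.filter fun x => ¬ g (U.erase x) = true with hN
    have hcard : E.card + N.card = U.card := card_filter_add_card_filter_not _
    obtain ⟨n1, hn1, hg1⟩ := hK U ⟨s + 1, by omega⟩ hUk
    have hn1N : n1 ∈ N := mem_filter.mpr ⟨hn1, by rw [hg1]; simp⟩
    have hNeven : Even N.card := by
      rcases hodd with ⟨a, ha⟩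
      rw [Nat.even_iff]
      omega
    have hmN : ∀ {x : P}, x ∈ N → x ∈ U ∧ g (U.erase x) = false := by
      intro x hx
      have h := mem_filter.mp hx
      exact ⟨h.1, by simpa using h.2⟩
    have hmE : ∀ {x : P}, x ∈ E → x ∈ U ∧ g (U.erase x) = true := fun hx => mem_filter.mp hx
    -- the relation
    let f : P → P → ZMod 2 := fun a b => if g (((U.erase n1).erase a).erase b) = true then 1 else 0
    have hf : ∀ a b, f a b = f b a := by
      intro a b
      simp only [f]
      rw [erase_right_comm (s := U.erase n1)]
    have key : ∀ n2 ∈ N.erase n1, ∑ b ∈ (N.erase n1).erase n2, f n2 b = 1 := by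
      intro n2 hn2
      have h21 : n2 ≠ n1 := ne_of_mem_erase hn2
      have hn2N := mem_of_mem_erase hn2
      have hn2U := (hmN hn2N).1
      set U' := (U.erase n1).erase n2 with hU'
      have hU'c : U'.card = 2 * s + 1 := by
        rw [hU', card_erase_of_mem (mem_erase.mpr ⟨h21, hn2U⟩), card_erase_of_mem hn1, hU]
        omega
      have hev := ih U' hU'c (by omega)
      have hEU' : ∀ e ∈ E, e ∈ U' ∧ g (U'.erase e) = true := by
        intro e he
        obtain ⟨heU, heg⟩ := hmE he
        have he1 : e ≠ n1 := by
          rintro rfl
          rw [hg1] at heg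
          exact absurd heg (by decide)
        have he2 : e ≠ n2 := by
          rintro rfl
          rw [(hmN hn2N).2] at heg
          exact absurd heg (by decide)
        have heU' : e ∈ U' := mem_erase.mpr ⟨he2, mem_erase.mpr ⟨he1, heU⟩⟩
        refine ⟨heU', ?_⟩
        by_contra hfalse
        have hfalse' : g (U'.erase e) = false := by simpa using hfalse
        have hTc : (U'.erase e).card = 2 * s := by
          rw [card_erase_of_mem heU', hU'c]
          rfl
        have m1 : n1 ∉ U'.erase e := by simp [hU']
        have m2 : n2 ∉ U'.erase e := by simp [hU']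
        have m3 : e ∉ U'.erase e := by simp
        refine hF (U'.erase e) (by omega) hfalse' n1 n2 e m1 m2 m3 h21.symm he1.symm he2.symm ?_ ?_ ?_
        · have : insert n1 (insert n2 (U'.erase e)) = U.erase e := by
            ext z
            simp only [hU', mem_insert, mem_erase]
            constructor
            · rintro (rfl | rfl | ⟨h1, h2, h3, h4⟩)
              · exact ⟨he1.symm, hn1⟩
              · exact ⟨he2.symm, hn2U⟩
              · exact ⟨h1, h4⟩
            · rintro ⟨h1, h2⟩
              by_cases hz1 : z = n1
              · exact Or.inl hz1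
              · by_cases hz2 : z = n2
                · exact Or.inr (Or.inl hz2)
                · exact Or.inr (Or.inr ⟨h1, hz2, hz1, h2⟩)
          rw [this]
          exact heg
        · have : insert n1 (insert e (U'.erase e)) = U.erase n2 := by
            rw [insert_erase heU']
            ext z
            simp only [hU', mem_insert, mem_erase]
            constructor
            · rintro (rfl | ⟨h1, h2, h3⟩)
              · exact ⟨h21.symm, hn1⟩
              · exact ⟨h1, h3⟩
            · rintro ⟨h1, h2⟩
              by_cases hz1 : z = n1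
              · exact Or.inl hz1
              · exact Or.inr ⟨h1, hz1, h2⟩
          rw [this]
          exact (hmN hn2N).2
        · have : insert n2 (insert e (U'.erase e)) = U.erase n1 := by
            rw [insert_erase heU', hU', insert_erase (mem_erase.mpr ⟨h21, hn2U⟩)]
          rw [this]
          exact hg1
      -- count modulo two
      have hsplit : (U'.filter fun x => g (U'.erase x) = true) =
          E ∪ (((N.erase n1).erase n2).filter fun x => g (U'.erase x) = true) := by
        ext z
        simp only [mem_union, mem_filter]
        constructor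
        · rintro ⟨hz, hgz⟩
          by_cases hzE : z ∈ E
          · exact Or.inl hzE
          · refine Or.inr ⟨?_, hgz⟩
            have hz' := mem_erase.mp hz
            have hz'' := mem_erase.mp hz'.2
            refine mem_erase.mpr ⟨hz'.1, mem_erase.mpr ⟨hz''.1, mem_filter.mpr ⟨hz''.2, ?_⟩⟩⟩
            intro h
            exact hzE (mem_filter.mpr ⟨hz''.2, h⟩)
        · rintro (hz | ⟨hz, hgz⟩)
          · exact hEU' z hz
          · have hz' := mem_erase.mp hz
            have hz'' := mem_erase.mp hz'.2
            exact ⟨mem_erase.mpr ⟨hz'.1, mem_erase.mpr ⟨hz''.1, (hmN hz''.2).1⟩⟩, hgz⟩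
      have hdisj : Disjoint E (((N.erase n1).erase n2).filter fun x => g (U'.erase x) = true) := by
        rw [disjoint_left]
        intro z hz1 hz2
        have h1 := (hmE hz1).2
        have h2 := (hmN (mem_of_mem_erase (mem_of_mem_erase (mem_filter.mp hz2).1))).2
        rw [h1] at h2
        exact absurd h2 (by decide)
      rw [hsplit, card_union_of_disjoint hdisj] at hev
      have hodd2 : Odd (((N.erase n1).erase n2).filter fun x => g (U'.erase x) = true).card := by
        rcases hodd with ⟨a, ha⟩
        rw [Nat.even_iff] at hev
        rw [Nat.odd_iff]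
        omega
      have h3 : ∑ b ∈ (N.erase n1).erase n2, f n2 b =
          (((((N.erase n1).erase n2).filter fun x => g (U'.erase x) = true).card : ℕ) : ZMod 2) := by
        rw [card_filter]
        push_cast
        rfl
      rw [h3]
      exact (ZMod.natCast_eq_one_iff_odd).mpr hodd2
    have h1 := sym_sum (N.erase n1) f hf
    rw [sum_congr rfl key, sum_const, nsmul_eq_mul, mul_one, ZMod.natCast_eq_zero_iff_even,
      card_erase_of_mem hn1N] at h1
    have hpos : 0 < N.card := card_pos.mpr ⟨n1, hn1N⟩
    rw [Nat.even_iff] at h1 hNeven
    omega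

end Pool.Agent.N443.PG
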