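import Pool.Agent.N443.PG.Hom
import Pool.Agent.N443.PG.Par

/-! Every large blow-up of an odd `(k+1)`-set contains one of the patterns (uniformity `k = c + 2`). -/

set_option autoImplicit false
open Finset

namespace Pool.Agent.N443.PG

variable {V : Type} [DecidableEq V]

/-- a complete `k`-graph on `k + 1` vertices, `k = c + 2` -/
def QK (c : ℕ) (H : Finset (Finset V)) (w : Fin (c + 3) → V) : Prop :=
  Function.Injective w ∧ ∀ i, ((univ.erase i).image w) ∈ H

/-- an induced copy of `F` in the link of the first `c` vertices -/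
def Cp (c : ℕ) (H : Finset (Finset V)) {J : Type} (F : SimpleGraph J) (w : Fin c ⊕ J → V) : Prop :=
  Function.Injective w ∧ ∀ j l, j ≠ l → (F.Adj j l ↔
    (insert (w (Sum.inr j)) (insert (w (Sum.inr l)) (univ.image fun i => w (Sum.inl i)))) ∈ H)

/-- the number of edges among the `k + 1` vertices is odd -/
def OddX (c : ℕ) (H : Finset (Finset V)) (x : Fin (c + 3) → V) : Prop :=
  Odd (univ.filter fun i => (univ.erase i).image x ∈ H).card

/-- a clique and isolated vertices -/
def G1 (t : ℕ) : SimpleGraph (Fin t ⊕ Fin t) := (⊤ : SimpleGraph (Fin t)) ⊕g (⊥ : SimpleGraph (Fin t))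

/-- a complete bipartite graph and isolated vertices -/
def G2 (t : ℕ) : SimpleGraph ((Fin t ⊕ Fin t) ⊕ Fin t) :=
  (completeBipartiteGraph (Fin t) (Fin t)) ⊕g (⊥ : SimpleGraph (Fin t))

/-- a clique completely joined to an independent set -/
def G3 (t : ℕ) : SimpleGraph (Fin t ⊕ Fin t) :=
  ((⊥ : SimpleGraph (Fin t)) ⊕g (⊤ : SimpleGraph (Fin t)))ᶜ

theorem listing {α : Type} (M : Multiset α) (n : ℕ) (h : M.card = n) :
    ∃ a : Fin n → α, (univ : Finset (Fin n)).val.map a = M := by
  induction M using Quot.ind with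
  | mk l =>
    have h' : l.length = n := h
    subst h'
    refine ⟨l.get, ?_⟩
    rw [Fin.univ_val_map, List.ofFn_get]
    rfl

section hom
variable {c r m T : ℕ} {H : Finset (Finset V)} {y : Fin r → Fin T → V} {χ : Multiset (Fin r) → Bool}
  {ζ : Fin r → Fin m → Fin T}

theorem hom_set (hm : ∀ Q : Finset (Fin r × Fin m), Q.card = c + 2 →
    ((Q.image fun q => y q.1 (ζ q.1 q.2)) ∈ H ↔ χ (Q.val.map Prod.fst) = true))
    {I : Type} [DecidableEq I] (pp : I → Fin r) (ix : I ↪ Fin m) (S : Finset I) (hS : S.card = c + 2) :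
    (S.image fun q => y (pp q) (ζ (pp q) (ix q))) ∈ H ↔ χ (S.val.map pp) = true := by
  have hinj : Function.Injective fun q => (pp q, ix q) := fun q q' h =>
    ix.injective (Prod.mk.inj h).2
  have h1 := hm (S.image fun q => (pp q, ix q)) (by rw [card_image_of_injective _ hinj, hS])
  rw [image_image, image_val_of_injOn hinj.injOn, Multiset.map_map] at h1
  exact h1

theorem occ_gen (hζ : ∀ a i b j, ζ a i = ζ b j → a = b ∧ i = j)
    (hy : ∀ i a j b, y i a = y j b → i = j ∧ a = b)
    (hm : ∀ Q : Finset (Fin r × Fin m), Q.card = c + 2 →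
      ((Q.image fun q => y q.1 (ζ q.1 q.2)) ∈ H ↔ χ (Q.val.map Prod.fst) = true))
    {J : Type} [Fintype J] [DecidableEq J]
    (hJ : c + Fintype.card J ≤ m) (F : SimpleGraph J) (b : Fin c → Fin r) (P : J → Fin r)
    (hF : ∀ j l, j ≠ l → (F.Adj j l ↔
      χ (P j ::ₘ P l ::ₘ (univ : Finset (Fin c)).val.map b) = true)) :
    ∃ e : Fin c ⊕ J → Fin r × Fin T, Function.Injective e ∧ Cp c H F fun q => y (e q).1 (e q).2 := by
  obtain ⟨ix⟩ : Nonempty ((Fin c ⊕ J) ↪ Fin m) := by
    refine Function.Embedding.nonempty_of_card_le ?_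
    rw [Fintype.card_sum, Fintype.card_fin, Fintype.card_fin]
    exact hJ
  let pp : Fin c ⊕ J → Fin r := Sum.elim b P
  let e : Fin c ⊕ J → Fin r × Fin T := fun q => (pp q, ζ (pp q) (ix q))
  have he : Function.Injective e := by
    intro q q' h
    exact ix.injective (hζ _ _ _ _ (Prod.mk.inj h).2).2
  refine ⟨e, he, ?_, ?_⟩
  · intro q q' h
    have h1 := hy _ _ _ _ h
    exact he (Prod.ext h1.1 h1.2)
  · intro j l hjl
    have n1 : (Sum.inr l : Fin c ⊕ J) ∉ univ.image (Sum.inl : Fin c → Fin c ⊕ J) := by simp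
    have n2 : (Sum.inr j : Fin c ⊕ J) ∉ insert (Sum.inr l) (univ.image (Sum.inl : Fin c → Fin c ⊕ J)) := by
      simp [hjl]
    have hc : (insert (Sum.inr j : Fin c ⊕ J) (insert (Sum.inr l)
        (univ.image (Sum.inl : Fin c → Fin c ⊕ J)))).card = c + 2 := by
      rw [card_insert_of_notMem n2, card_insert_of_notMem n1,
        card_image_of_injective _ Sum.inl_injective, card_univ, Fintype.card_fin]
    have h1 := hom_set hm pp ix _ hc
    rw [insert_val_of_notMem n2, insert_val_of_notMem n1,
      image_val_of_injOn Sum.inl_injective.injOn, Multiset.map_cons, Multiset.map_cons,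
      Multiset.map_map, image_insert, image_insert, image_image] at h1
    rw [hF j l hjl]
    exact h1.symm

end hom

theorem bf {b : Bool} (h : b = false) : ¬ b = true := by rw [h]; simp

/-- moving pairs -/
theorem pads {r c : ℕ} {χ : Multiset (Fin r) → Bool}
    (hS : ∀ B : Multiset (Fin r), B.card = c → ∀ v w, χ (v ::ₘ v ::ₘ B) = χ (w ::ₘ w ::ₘ B))
    (v w : Fin r) : ∀ (j : ℕ) (B : Multiset (Fin r)), B.card + 2 * j = c + 2 →
      χ (B + Multiset.replicate (2 * j) v) = χ (B + Multiset.replicate (2 * j) w) := by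
  intro j
  induction j with
  | zero => intro B _; rfl
  | succ j ih =>
    intro B hB
    have e : ∀ u : Fin r, Multiset.replicate (2 * (j + 1)) u =
        u ::ₘ u ::ₘ Multiset.replicate (2 * j) u := fun u => by
      rw [show 2 * (j + 1) = 2 * j + 1 + 1 by ring, Multiset.replicate_succ, Multiset.replicate_succ]
    have h1 : B + (v ::ₘ v ::ₘ Multiset.replicate (2 * j) v) =
        v ::ₘ v ::ₘ (B + Multiset.replicate (2 * j) v) := by
      rw [Multiset.add_cons, Multiset.add_cons]
    have h2 : w ::ₘ w ::ₘ (B + Multiset.replicate (2 * j) v) =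
        (w ::ₘ w ::ₘ B) + Multiset.replicate (2 * j) v := by
      rw [Multiset.cons_add, Multiset.cons_add]
    have h3 : B + (w ::ₘ w ::ₘ Multiset.replicate (2 * j) w) =
        (w ::ₘ w ::ₘ B) + Multiset.replicate (2 * j) w := by
      rw [Multiset.add_cons, Multiset.add_cons, Multiset.cons_add, Multiset.cons_add]
    rw [e v, e w, h1, hS (B + Multiset.replicate (2 * j) v) (by
      rw [Multiset.card_add, Multiset.card_replicate]; omega) v w, h2, h3]
    exact ih (w ::ₘ w ::ₘ B) (by rw [Multiset.card_cons, Multiset.card_cons]; omega)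

/-- the combinatorial core -/
theorem core {c : ℕ} (hc : Even c) (χ : Multiset (Fin (c + 3)) → Bool)
    (hK : ∀ M : Multiset (Fin (c + 3)), M.card = c + 3 → ∃ x ∈ M, χ (M.erase x) = false)
    (hS : ∀ B : Multiset (Fin (c + 3)), B.card = c → ∀ v w, χ (v ::ₘ v ::ₘ B) = χ (w ::ₘ w ::ₘ B))
    (hF : ∀ B : Multiset (Fin (c + 3)), B.card = c → ∀ x y z, χ (x ::ₘ x ::ₘ B) = false →
      χ (y ::ₘ y ::ₘ B) = false → χ (z ::ₘ z ::ₘ B) = false → χ (x ::ₘ y ::ₘ B) = true →
      χ (x ::ₘ z ::ₘ B) = false → χ (y ::ₘ z ::ₘ B) = false → False) :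
    Even ((univ : Finset (Fin (c + 3))).filter fun x => χ (univ.erase x).val = true).card := by
  obtain ⟨s, hs⟩ := hc
  let g : Finset (Fin (c + 3)) → Bool := fun T => χ (T.val + Multiset.replicate (c + 2 - T.card) 0)
  have key := parity (c + 2) g ?_ ?_ (s + 1) univ (by rw [card_univ, Fintype.card_fin]; omega)
    (by rw [card_univ, Fintype.card_fin])
  · have e : ∀ x : Fin (c + 3), g (univ.erase x) = χ (univ.erase x).val := by
      intro x
      have h1 : c + 2 - (univ.erase x : Finset (Fin (c + 3))).card = 0 := by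
        rw [card_erase_of_mem (mem_univ x), card_univ, Fintype.card_fin]
        omega
      simp only [g, h1, Multiset.replicate_zero, add_zero]
    simp only [e] at key
    exact key
  · intro U hU hUc
    obtain ⟨u, hu⟩ : U.Nonempty := card_pos.mp hU.pos
    obtain ⟨j, hj⟩ := hU
    obtain ⟨x, hx, hg⟩ := hK (U.val + Multiset.replicate (c + 3 - U.card) u) (by
      rw [Multiset.card_add, Multiset.card_replicate]
      have : Multiset.card U.val = U.card := rfl
      omega)
    have hxU : x ∈ U := by
      rcases Multiset.mem_add.mp hx with h | h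
      · exact h
      · rw [Multiset.eq_of_mem_replicate h]
        exact hu
    refine ⟨x, hxU, ?_⟩
    rw [Multiset.erase_add_left_pos _ (mem_val.mpr hxU), ← erase_val] at hg
    have hcx : (U.erase x).card = U.card - 1 := card_erase_of_mem hxU
    have e1 : c + 3 - U.card = 2 * (s + 1 - j) := by omega
    have e2 : c + 2 - (U.erase x).card = 2 * (s + 1 - j) := by omega
    have hv : Multiset.card (U.erase x).val = (U.erase x).card := rfl
    rw [e1, pads hS u 0 (s + 1 - j) (U.erase x).val (by omega)] at hg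
    simp only [g, e2]
    exact hg
  · intro T hT hgT x y z hx hy hz hxy hxz hyz h1 h2 h3
    set B := T.val + Multiset.replicate (c - T.card) (0 : Fin (c + 3)) with hB
    have hTv : Multiset.card T.val = T.card := rfl
    have hBc : B.card = c := by
      rw [hB, Multiset.card_add, Multiset.card_replicate]
      omega
    have h0 : χ (0 ::ₘ 0 ::ₘ B) = false := by
      have e : 0 ::ₘ 0 ::ₘ B = T.val + Multiset.replicate (c + 2 - T.card) (0 : Fin (c + 3)) := by
        rw [show c + 2 - T.card = c - T.card + 1 + 1 by omega, Multiset.replicate_succ,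
          Multiset.replicate_succ, Multiset.add_cons, Multiset.add_cons, hB]
      rw [e]
      exact hgT
    have ins : ∀ {a b : Fin (c + 3)}, a ∉ T → b ∉ T → a ≠ b →
        g (insert a (insert b T)) = χ (a ::ₘ b ::ₘ B) := by
      intro a b ha hb hab
      have hab' : a ∉ insert b T := by simp [hab, ha]
      have e : c + 2 - (insert a (insert b T)).card = c - T.card := by
        rw [card_insert_of_notMem hab', card_insert_of_notMem hb]
        omega
      simp only [g, e, insert_val_of_notMem hab', insert_val_of_notMem hb, Multiset.cons_add, hB]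
    rw [ins hx hy hxy] at h1
    rw [ins hx hz hxz] at h2
    rw [ins hy hz hyz] at h3
    exact hF B hBc x y z (by rw [hS B hBc x 0]; exact h0) (by rw [hS B hBc y 0]; exact h0)
      (by rw [hS B hBc z 0]; exact h0) h1 h2 h3

/-- the statement on blow-ups for a given size -/
def OccT (c t T : ℕ) : Prop := ∀ (V : Type) [DecidableEq V]
    (H : Finset (Finset V)) (y : Fin (c + 3) → Fin T → V),
    (∀ i a j b, y i a = y j b → i = j ∧ a = b) →
    (∀ f : Fin (c + 3) → Fin T, OddX c H fun i => y i (f i)) →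
    (∃ e : Fin (c + 3) → Fin (c + 3) × Fin T, Function.Injective e ∧
      QK c H fun q => y (e q).1 (e q).2) ∨
    (∃ e : Fin c ⊕ (Fin t ⊕ Fin t) → Fin (c + 3) × Fin T, Function.Injective e ∧
      Cp c H (G1 t) fun q => y (e q).1 (e q).2) ∨
    (∃ e : Fin c ⊕ (Fin t ⊕ Fin t) → Fin (c + 3) × Fin T, Function.Injective e ∧
      Cp c H (G3 t) fun q => y (e q).1 (e q).2) ∨
    (∃ e : Fin c ⊕ ((Fin t ⊕ Fin t) ⊕ Fin t) → Fin (c + 3) × Fin T, Function.Injective e ∧
      Cp c H (G2 t) fun q => y (e q).1 (e q).2)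

theorem occ (c t : ℕ) (hc : Even c) : ∃ T : ℕ, 0 < T ∧ c + 3 * t + 3 ≤ T ∧ OccT c t T := by
  obtain ⟨T, hT0, hT⟩ := hom_gen (c + 2) (c + 3) (c + 3 * t + 3)
  have hTm : c + 3 * t + 3 ≤ T := by
    obtain ⟨χ, ζ, hζ, -⟩ := hT (Fin (c + 3) × Fin T) ∅ fun i a => (i, a)
    have h1 : Function.Injective (ζ 0) := fun i j h => (hζ 0 i 0 j h).2
    have h2 := Fintype.card_le_of_injective _ h1
    rw [Fintype.card_fin, Fintype.card_fin] at h2
    exact h2
  refine ⟨T, hT0, hTm, fun V _ H y hy hx => ?_⟩
  obtain ⟨χ, ζ, hζ, hm⟩ := hT V H y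
  by_contra hcon
  rw [not_or, not_or, not_or] at hcon
  obtain ⟨nK, n1, n3, n2⟩ := hcon
  have ixc : Nonempty (Fin (c + 3) ↪ Fin (c + 3 * t + 3)) :=
    Function.Embedding.nonempty_of_card_le (by rw [Fintype.card_fin, Fintype.card_fin]; omega)
  obtain ⟨ix⟩ := ixc
  have hec : ∀ i : Fin (c + 3), (univ.erase i : Finset (Fin (c + 3))).card = c + 2 := fun i => by
    rw [card_erase_of_mem (mem_univ i), card_univ, Fintype.card_fin]
    rfl
  have hev := core hc χ ?_ ?_ ?_
  · have hX := hx fun i => ζ i (ix i)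
    unfold OddX at hX
    have e : (univ.filter fun i : Fin (c + 3) =>
        ((univ.erase i).image fun i => y i (ζ i (ix i))) ∈ H) =
        univ.filter fun x => χ (univ.erase x).val = true := by
      refine filter_congr fun i _ => ?_
      have h := hom_set hm (fun i : Fin (c + 3) => i) ix (univ.erase i) (hec i)
      rw [Multiset.map_id'] at h
      exact h
    rw [e] at hX
    exact (Nat.not_even_iff_odd.mpr hX) hev
  · intro M hM
    by_contra hno
    push Not at hno
    obtain ⟨a, ha⟩ := listing M (c + 3) hM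
    refine nK ⟨fun i => (a i, ζ (a i) (ix i)), ?_, ?_, ?_⟩
    · intro i j h
      exact ix.injective (hζ _ _ _ _ (Prod.mk.inj h).2).2
    · intro i j h
      exact ix.injective (hζ _ _ _ _ (hy _ _ _ _ h).2).2
    · intro i
      refine (hom_set hm a ix (univ.erase i) (hec i)).mpr ?_
      have h1 : (univ.erase i : Finset (Fin (c + 3))).val.map a = M.erase (a i) := by
        rw [erase_val, Multiset.map_erase_of_mem _ _ (mem_val.mpr (mem_univ i)), ha]
      rw [h1]
      have h2 := hno (a i) (by rw [← ha]; exact Multiset.mem_map_of_mem a (mem_val.mpr (mem_univ i)))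
      simpa using h2
  · intro B hB
    obtain ⟨b, hb⟩ := listing B c hB
    have main : ∀ v w, χ (v ::ₘ v ::ₘ B) = true → χ (w ::ₘ w ::ₘ B) = false → False := by
      intro v w hv hw
      have hsw : w ::ₘ v ::ₘ B = v ::ₘ w ::ₘ B := Multiset.cons_swap _ _ _
      by_cases hvw : χ (v ::ₘ w ::ₘ B) = true
      · refine n3 (occ_gen hζ hy hm (by simp; omega) (G3 t) b
          (Sum.elim (fun _ => v) fun _ => w) ?_)
        rw [hb]
        rintro (j | j) (l | l) hjl
        · exact iff_of_true (by simpa [G3, SimpleGraph.sum] using hjl) hv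
        · exact iff_of_true (by simp [G3, SimpleGraph.sum]) hvw
        · exact iff_of_true (by simp [G3, SimpleGraph.sum]) (by
            change χ (w ::ₘ v ::ₘ B) = true
            rw [hsw]; exact hvw)
        · exact iff_of_false (by
            have : j ≠ l := by simpa using hjl
            simp [G3, SimpleGraph.sum, this]) (bf hw)
      · have hvw' : χ (v ::ₘ w ::ₘ B) = false := by simpa using hvw
        refine n1 (occ_gen hζ hy hm (by simp; omega) (G1 t) b
          (Sum.elim (fun _ => v) fun _ => w) ?_)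
        rw [hb]
        rintro (j | j) (l | l) hjl
        · exact iff_of_true (by simpa [G1, SimpleGraph.sum] using hjl) hv
        · exact iff_of_false (by simp [G1, SimpleGraph.sum]) (bf hvw')
        · exact iff_of_false (by simp [G1, SimpleGraph.sum]) (by
            change ¬ χ (w ::ₘ v ::ₘ B) = true
            rw [hsw]; exact bf hvw')
        · exact iff_of_false (by simp [G1, SimpleGraph.sum]) (bf hw)
    intro v w
    cases hv : χ (v ::ₘ v ::ₘ B) <;> cases hw : χ (w ::ₘ w ::ₘ B)
    · rfl
    · exact (main w v hw hv).elim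
    · exact (main v w hv hw).elim
    · rfl
  · intro B hB x y' z h1 h2 h3 h4 h5 h6
    obtain ⟨b, hb⟩ := listing B c hB
    refine n2 (occ_gen hζ hy hm (by simp; omega) (G2 t) b
      (Sum.elim (Sum.elim (fun _ => x) fun _ => y') fun _ => z) ?_)
    rw [hb]
    have s1 : y' ::ₘ x ::ₘ B = x ::ₘ y' ::ₘ B := Multiset.cons_swap _ _ _
    have s2 : z ::ₘ x ::ₘ B = x ::ₘ z ::ₘ B := Multiset.cons_swap _ _ _
    have s3 : z ::ₘ y' ::ₘ B = y' ::ₘ z ::ₘ B := Multiset.cons_swap _ _ _
    rintro ((j | j) | j) ((l | l) | l) hjl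
    · exact iff_of_false (by simp [G2, SimpleGraph.sum]) (bf h1)
    · exact iff_of_true (by simp [G2, SimpleGraph.sum]) h4
    · exact iff_of_false (by simp [G2, SimpleGraph.sum]) (bf h5)
    · exact iff_of_true (by simp [G2, SimpleGraph.sum]) (by
        change χ (y' ::ₘ x ::ₘ B) = true
        rw [s1]; exact h4)
    · exact iff_of_false (by simp [G2, SimpleGraph.sum]) (bf h2)
    · exact iff_of_false (by simp [G2, SimpleGraph.sum]) (bf h6)
    · exact iff_of_false (by simp [G2, SimpleGraph.sum]) (by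
        change ¬ χ (z ::ₘ x ::ₘ B) = true
        rw [s2]; exact bf h5)
    · exact iff_of_false (by simp [G2, SimpleGraph.sum]) (by
        change ¬ χ (z ::ₘ y' ::ₘ B) = true
        rw [s3]; exact bf h6)
    · exact iff_of_false (by simp [G2, SimpleGraph.sum]) (bf h3)

end Pool.Agent.N443.PG
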